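import Pool.Agent.P8H70.TF.Stm

/-!
# Project TF, package AVG
-/

set_option autoImplicit false

open MeasureTheory Set Filter Topology
open scoped InnerProductSpace ENNReal NNReal

namespace Pool.Agent.P8H16.TF

open Pool.Agent.P8H70.TF

variable {K : Type} [NormedAddCommGroup K] [InnerProductSpace ℝ K]

omit [InnerProductSpace ℝ K] in
/-- continuity of translations in `L^p` -/
lemma trans_cont (p : ℝ≥0∞) [Fact (1 ≤ p)] (hp : p ≠ ∞) (A : ℝ → K) (hA : MemLp A p volume) :
    Tendsto (fun t : ℝ => eLpNorm (fun τ => A (t + τ) - A τ) p volume) (𝓝 0) (𝓝 0) := by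
  let g : ℝ → C(ℝ, ℝ) := fun t => ⟨fun τ => t + τ, continuous_const.add continuous_id⟩
  have hg : Tendsto g (𝓝 0) (𝓝 (g 0)) := by
    have h : Continuous g :=
      (ContinuousMap.mk (fun a : ℝ × ℝ => a.1 + a.2) continuous_add).curry.continuous
    exact h.tendsto 0
  have hgm : ∀ t, MeasurePreserving (g t) volume volume := fun t =>
    measurePreserving_add_left volume t
  have h1 := (tendsto_const_nhds (x := hA.toLp A) (f := 𝓝 (0 : ℝ))).compMeasurePreservingLp hg hgm
    (hgm 0) hp
  rw [Lp.tendsto_Lp_iff_tendsto_eLpNorm'] at h1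
  refine h1.congr fun t => eLpNorm_congr_ae ?_
  have e1 := Lp.coeFn_compMeasurePreserving (hA.toLp A) (hgm t)
  have e2 := Lp.coeFn_compMeasurePreserving (hA.toLp A) (hgm 0)
  have e3 := (hgm t).quasiMeasurePreserving.ae_eq_comp hA.coeFn_toLp
  have e4 := (hgm 0).quasiMeasurePreserving.ae_eq_comp hA.coeFn_toLp
  filter_upwards [e1, e2, e3, e4] with τ h1 h2 h3 h4
  rw [Pi.sub_apply, h1, h2, h3, h4]
  simp [g]

lemma hol (p q : ℝ≥0∞) [ENNReal.HolderTriple p q 1] (f B : ℝ → K) (hf : MemLp f p volume)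
    (hB : MemLp B q volume) :
    Integrable (fun τ => ⟪f τ, B τ⟫_ℝ) ∧
      ∫ τ, ‖⟪f τ, B τ⟫_ℝ‖ ≤ (eLpNorm f p volume * eLpNorm B q volume).toReal := by
  have hm : AEStronglyMeasurable (fun τ => ⟪f τ, B τ⟫_ℝ) volume := hf.1.inner hB.1
  have hb : eLpNorm (fun τ => ⟪f τ, B τ⟫_ℝ) 1 volume ≤
      ((1 : ℝ≥0) : ℝ≥0∞) * eLpNorm f p volume * eLpNorm B q volume := by
    refine eLpNorm_le_eLpNorm_mul_eLpNorm'_of_norm hf.1 hB.1 (fun x y => ⟪x, y⟫_ℝ) 1 ?_
    refine Filter.Eventually.of_forall fun τ => ?_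
    rw [NNReal.coe_one, one_mul]
    exact norm_inner_le_norm _ _
  rw [ENNReal.coe_one, one_mul] at hb
  have hfin : eLpNorm f p volume * eLpNorm B q volume ≠ ∞ :=
    ENNReal.mul_ne_top hf.2.ne hB.2.ne
  refine ⟨memLp_one_iff_integrable.1 ⟨hm, hb.trans_lt (lt_top_iff_ne_top.2 hfin)⟩, ?_⟩
  rw [integral_norm_eq_lintegral_enorm hm, ← eLpNorm_one_eq_lintegral_enorm]
  exact ENNReal.toReal_mono hfin hb

lemma gen (p q : ℝ≥0∞) [Fact (1 ≤ p)] [ENNReal.HolderTriple p q 1] (hp : p ≠ ∞) (A B : ℝ → K)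
    (hA : MemLp A p volume) (hB : MemLp B q volume) :
    Tendsto (fun h : ℝ => (1 / h) * ∫ τ, ∫ r in (τ - h)..(τ + h), ⟪A r, B τ⟫_ℝ) (𝓝[>] 0)
      (𝓝 (2 * ∫ τ, ⟪A τ, B τ⟫_ℝ)) := by
  have hAt : ∀ t : ℝ, MemLp (fun τ => A (t + τ)) p volume := fun t =>
    hA.comp_measurePreserving (measurePreserving_add_left volume t)
  have hAn : ∀ t : ℝ, eLpNorm (fun τ => A (t + τ)) p volume = eLpNorm A p volume := fun t =>
    eLpNorm_comp_measurePreserving hA.1 (measurePreserving_add_left volume t)
  set c : ℝ → ℝ := fun t => ∫ τ, ⟪A (t + τ), B τ⟫_ℝ with hc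
  set c0 : ℝ := ∫ τ, ⟪A τ, B τ⟫_ℝ with hc0
  -- continuity at zero
  have hcont : Tendsto (fun t => |c t - c0|) (𝓝 0) (𝓝 0) := by
    have h1 : Tendsto (fun t : ℝ => (eLpNorm (fun τ => A (t + τ) - A τ) p volume *
        eLpNorm B q volume).toReal) (𝓝 0) (𝓝 0) := by
      have h2 := ENNReal.Tendsto.mul_const (b := eLpNorm B q volume) (trans_cont p hp A hA)
        (Or.inr hB.2.ne)
      rw [zero_mul] at h2
      exact (ENNReal.tendsto_toReal ENNReal.zero_ne_top).comp h2
    refine squeeze_zero (fun t => abs_nonneg _) (fun t => ?_) h1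
    have h3 := hol p q (fun τ => A (t + τ) - A τ) B ((hAt t).sub hA) hB
    have h4 : c t - c0 = ∫ τ, ⟪A (t + τ) - A τ, B τ⟫_ℝ := by
      rw [hc, hc0]
      simp only
      rw [← integral_sub (hol p q _ B (hAt t) hB).1 (hol p q A B hA hB).1]
      refine integral_congr_ae (Filter.Eventually.of_forall fun τ => ?_)
      simp only
      rw [inner_sub_left]
    rw [h4]
    exact (norm_integral_le_integral_norm _).trans h3.2
  -- Fubini
  have hfub : ∀ h : ℝ, 0 < h → IntervalIntegrable c volume (-h) h ∧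
      ∫ τ, ∫ r in (τ - h)..(τ + h), ⟪A r, B τ⟫_ℝ = ∫ t in (-h)..h, c t := by
    intro h hh
    set μ : Measure ℝ := volume.restrict (Ioc (-h) h) with hμ
    have hfinm : IsFiniteMeasure μ := ⟨by
      rw [hμ, Measure.restrict_apply_univ, Real.volume_Ioc]
      exact ENNReal.ofReal_lt_top⟩
    have hFm : AEStronglyMeasurable (fun z : ℝ × ℝ => ⟪A (z.1 + z.2), B z.2⟫_ℝ)
        (μ.prod volume) := by
      have h1 : AEStronglyMeasurable (fun z : ℝ × ℝ => A z.2) (μ.prod volume) := hA.1.comp_snd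
      have h2 := h1.comp_measurePreserving (measurePreserving_prod_add μ (volume : Measure ℝ))
      exact h2.inner hB.1.comp_snd
    have hFi : Integrable (fun z : ℝ × ℝ => ⟪A (z.1 + z.2), B z.2⟫_ℝ) (μ.prod volume) := by
      rw [integrable_prod_iff hFm]
      refine ⟨Filter.Eventually.of_forall fun t => (hol p q _ B (hAt t) hB).1, ?_⟩
      refine (integrable_const ((eLpNorm A p volume * eLpNorm B q volume).toReal)).mono'
        hFm.norm.integral_prod_right' ?_
      refine Filter.Eventually.of_forall fun t => ?_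
      rw [Real.norm_of_nonneg (integral_nonneg fun _ => norm_nonneg _)]
      have := (hol p q _ B (hAt t) hB).2
      rwa [hAn] at this
    constructor
    · rw [intervalIntegrable_iff_integrableOn_Ioc_of_le (by linarith)]
      exact hFi.integral_prod_left
    · rw [intervalIntegral.integral_of_le (by linarith : -h ≤ h)]
      have h3 := integral_integral_swap (f := fun t τ => ⟪A (t + τ), B τ⟫_ℝ) hFi
      rw [hc]
      simp only
      rw [← hμ, h3]
      refine integral_congr_ae (Filter.Eventually.of_forall fun τ => ?_)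
      simp only
      have h4 := intervalIntegral.integral_comp_add_right (a := -h) (b := h)
        (fun r => ⟪A r, B τ⟫_ℝ) τ
      rw [show τ - h = -h + τ by ring, show τ + h = h + τ by ring, ← h4,
        intervalIntegral.integral_of_le (by linarith : -h ≤ h)]
  rw [Metric.tendsto_nhds]
  intro ε hε
  have h5 : ∀ᶠ t : ℝ in 𝓝 0, |c t - c0| < ε / 4 :=
    (hcont.eventually (gt_mem_nhds (by linarith : (0 : ℝ) < ε / 4)))
  obtain ⟨δ, hδ, hδs⟩ := Metric.eventually_nhds_iff.1 h5
  filter_upwards [self_mem_nhdsWithin, nhdsWithin_le_nhds (Iio_mem_nhds hδ)] with h hh hd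
  have hh : 0 < h := hh
  have hd : h < δ := hd
  obtain ⟨h6, h7⟩ := hfub h hh
  rw [h7]
  have h8 : ∫ t in (-h)..h, c t = (∫ t in (-h)..h, (c t - c0)) + 2 * h * c0 := by
    rw [intervalIntegral.integral_sub h6 intervalIntegrable_const, intervalIntegral.integral_const,
      smul_eq_mul]
    ring
  have h9 : ‖∫ t in (-h)..h, (c t - c0)‖ ≤ ε / 4 * |h - -h| := by
    refine intervalIntegral.norm_integral_le_of_norm_le_const fun t ht => ?_
    rw [uIoc_of_le (by linarith : -h ≤ h)] at ht
    refine (hδs ?_).le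
    rw [Real.dist_eq, sub_zero, abs_lt]
    constructor <;> linarith [ht.1, ht.2]
  rw [Real.dist_eq, h8]
  have h10 : 1 / h * ((∫ t in (-h)..h, (c t - c0)) + 2 * h * c0) - 2 * c0 =
      1 / h * ∫ t in (-h)..h, (c t - c0) := by
    field_simp
    ring
  rw [h10, abs_mul, abs_of_pos (by positivity : 0 < 1 / h)]
  have h11 : |h - -h| = 2 * h := by
    rw [abs_of_pos (by linarith)]
    ring
  rw [h11, Real.norm_eq_abs] at h9
  calc 1 / h * |∫ t in (-h)..h, (c t - c0)| ≤ 1 / h * (ε / 4 * (2 * h)) :=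
        mul_le_mul_of_nonneg_left h9 (by positivity)
    _ = ε / 2 := by
        field_simp
        ring
    _ < ε := by linarith

theorem avg : S_AVG := by
  intro K _ _ _ θ hθ hθc
  obtain ⟨D, hD⟩ : ∃ D : ℝ, ∀ x, ‖θ x‖ ≤ D := hθc.exists_bound_of_continuous hθ
  constructor
  · intro A hA
    have hB : MemLp (fun τ => θ τ • A τ) 2 volume := by
      refine MemLp.of_le_mul (c := D) hA (hθ.aestronglyMeasurable.smul hA.1) ?_
      refine Filter.Eventually.of_forall fun τ => ?_
      rw [norm_smul]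
      exact mul_le_mul_of_nonneg_right (hD τ) (norm_nonneg _)
    have h := gen 2 2 (by norm_num) A (fun τ => θ τ • A τ) hA hB
    have e1 : ∫ τ, ⟪A τ, θ τ • A τ⟫_ℝ = ∫ τ, θ τ * ‖A τ‖ ^ 2 := by
      refine integral_congr_ae (Filter.Eventually.of_forall fun τ => ?_)
      simp only
      rw [real_inner_smul_right, real_inner_self_eq_norm_sq]
    rw [e1] at h
    refine h.congr fun x => ?_
    congr 1
    refine integral_congr_ae (Filter.Eventually.of_forall fun τ => ?_)
    simp only
    rw [← intervalIntegral.integral_const_mul]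
    refine intervalIntegral.integral_congr fun r _ => ?_
    exact real_inner_smul_right _ _ _
  · intro A B M hA hBm hBb
    have hB : MemLp (fun τ => θ τ • B τ) ∞ volume := by
      refine memLp_top_of_bound (hθ.aestronglyMeasurable.smul hBm) (D * M) ?_
      refine Filter.Eventually.of_forall fun τ => ?_
      rw [norm_smul]
      exact mul_le_mul (hD τ) (hBb τ) (norm_nonneg _) ((norm_nonneg _).trans (hD τ))
    have h := gen 1 ∞ (by norm_num) A (fun τ => θ τ • B τ) (memLp_one_iff_integrable.2 hA) hB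
    have e1 : ∫ τ, ⟪A τ, θ τ • B τ⟫_ℝ = ∫ τ, θ τ * ⟪A τ, B τ⟫_ℝ := by
      refine integral_congr_ae (Filter.Eventually.of_forall fun τ => ?_)
      simp only
      rw [real_inner_smul_right]
    rw [e1] at h
    refine h.congr fun x => ?_
    congr 1
    refine integral_congr_ae (Filter.Eventually.of_forall fun τ => ?_)
    simp only
    rw [← intervalIntegral.integral_const_mul]
    refine intervalIntegral.integral_congr fun r _ => ?_
    exact real_inner_smul_right _ _ _

end Pool.Agent.P8H16.TF
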