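import Pool.Agent.P8H70.TF.Stm

/-!
# Project TF, package FAT
-/

set_option autoImplicit false

open MeasureTheory Set Filter Topology
open scoped InnerProductSpace ENNReal NNReal

namespace Pool.Agent.P8H16.TF

open Pool.Agent.P8H70.TF

theorem fat : S_FAT := by
  intro α _ μ F F' C c hF hF0 hF' hlim hle hC
  have hF0' : 0 ≤ᵐ[μ] F' := by
    filter_upwards [hlim, ae_all_iff.2 hF0] with x hx h0
    exact ge_of_tendsto' hx h0
  have h1 : ∫⁻ x, ENNReal.ofReal (F' x) ∂μ ≤
      liminf (fun n => ∫⁻ x, ENNReal.ofReal (F n x) ∂μ) atTop := by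
    have h : ∫⁻ x, ENNReal.ofReal (F' x) ∂μ =
        ∫⁻ x, liminf (fun n => ENNReal.ofReal (F n x)) atTop ∂μ := by
      refine lintegral_congr_ae ?_
      filter_upwards [hlim] with x hx
      exact ((ENNReal.continuous_ofReal.tendsto _).comp hx).liminf_eq.symm
    rw [h]
    exact lintegral_liminf_le' fun n => (hF n).1.aemeasurable.ennreal_ofReal
  have h2 : liminf (fun n => ∫⁻ x, ENNReal.ofReal (F n x) ∂μ) atTop ≤ ENNReal.ofReal c := by
    have h3 : Tendsto (fun n => ENNReal.ofReal (C n)) atTop (𝓝 (ENNReal.ofReal c)) :=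
      (ENNReal.continuous_ofReal.tendsto _).comp hC
    rw [← h3.liminf_eq]
    refine liminf_le_liminf ?_
    filter_upwards [hle] with n hn
    rw [← ofReal_integral_eq_lintegral_ofReal (hF n) (hF0 n)]
    exact ENNReal.ofReal_le_ofReal hn
  have hc : 0 ≤ c :=
    ge_of_tendsto hC (hle.mono fun n hn => (integral_nonneg_of_ae (hF0 n)).trans hn)
  have h4 : ENNReal.ofReal (∫ x, F' x ∂μ) ≤ ENNReal.ofReal c := by
    rw [ofReal_integral_eq_lintegral_ofReal hF' hF0']
    exact h1.trans h2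
  exact (ENNReal.ofReal_le_ofReal_iff hc).1 h4

end Pool.Agent.P8H16.TF
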