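import Pool.Agent.P8H70.TF.Stm

/-!
# Project TF, package SHIFT
-/

set_option autoImplicit false

open MeasureTheory Set Filter Topology
open scoped InnerProductSpace ENNReal NNReal

namespace Pool.Agent.P8H16.TF

open Pool.Agent.P8H70.TF

theorem shift : S_SHIFT := by
  intro H _ _ _ T M u θ C hT hum hub huw hθ hθs
  have hM : 0 ≤ M := (norm_nonneg _).trans (hub 0 ⟨le_rfl, hT.le⟩)
  -- the support of `θ`
  have hcomp : IsCompact (tsupport θ) := by
    refine (isCompact_Icc (a := (0 : ℝ)) (b := T)).of_isClosed_subset (isClosed_tsupport θ) ?_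
    exact hθs.trans Ioo_subset_Icc_self
  obtain ⟨δ, hδ, hδs⟩ : ∃ δ : ℝ, 0 < δ ∧ ∀ x, θ x ≠ 0 → δ ≤ x ∧ x ≤ T - δ := by
    obtain ⟨δ, hδ, hs⟩ := hcomp.exists_cthickening_subset_open isOpen_Ioo hθs
    refine ⟨δ, hδ, fun x hx => ?_⟩
    have hx' : x ∈ tsupport θ := subset_tsupport θ hx
    have h1 : x - δ ∈ Ioo 0 T := hs (Metric.mem_cthickening_of_dist_le _ x _ _ hx' (by
      rw [Real.dist_eq]; simp [abs_of_pos hδ]))
    have h2 : x + δ ∈ Ioo 0 T := hs (Metric.mem_cthickening_of_dist_le _ x _ _ hx' (by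
      rw [Real.dist_eq]; simp [abs_of_pos hδ]))
    exact ⟨by linarith [h1.1], by linarith [h2.2]⟩
  -- the extension by zero
  set v : ℝ → H := (Ioo 0 T).indicator u with hv
  have hvm : AEStronglyMeasurable v volume := (aestronglyMeasurable_indicator_iff
    measurableSet_Ioo).2 hum
  have hvb : ∀ t, ‖v t‖ ≤ M := by
    intro t
    by_cases ht : t ∈ Ioo 0 T
    · rw [hv, indicator_of_mem ht]
      exact hub t (Ioo_subset_Icc_self ht)
    · rw [hv, indicator_of_notMem ht, norm_zero]
      exact hM
  have hve : ∀ t ∈ Ioo 0 T, v t = u t := fun t ht => indicator_of_mem ht u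
  have hshift : ∀ h : ℝ, AEStronglyMeasurable (fun t => v (t + h)) volume := fun h =>
    hvm.comp_measurePreserving (measurePreserving_add_right volume h)
  have hθb : ∀ h : ℝ, ∀ s, ‖θ (s + h) - θ s‖ ≤ (C : ℝ) * |h| := by
    intro h s
    have h1 := hθ.dist_le_mul (s + h) s
    rw [dist_eq_norm, Real.dist_eq, add_sub_cancel_left] at h1
    exact h1
  obtain ⟨B, hB⟩ : ∃ B : ℝ, ∀ x, ‖θ x‖ ≤ B :=
    (show HasCompactSupport θ from hcomp).exists_bound_of_continuous hθ.continuous
  -- integrals over the line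
  have hint : ∀ h : ℝ, Integrable (fun τ => θ τ * ⟪v (τ + h), v τ⟫_ℝ) := by
    intro h
    have h1 : Integrable (fun τ => ‖θ τ‖ * M ^ 2) :=
      ((hθ.continuous.integrable_of_hasCompactSupport hcomp).norm).mul_const _
    refine h1.mono' (hθ.continuous.aestronglyMeasurable.mul ((hshift h).inner hvm)) ?_
    refine Filter.Eventually.of_forall fun τ => ?_
    rw [norm_mul]
    refine mul_le_mul_of_nonneg_left ?_ (norm_nonneg _)
    refine (norm_inner_le_norm _ _).trans ?_
    rw [sq]
    exact mul_le_mul (hvb _) (hvb _) (norm_nonneg _) hM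
  have hline : ∀ h : ℝ, 0 < h → h < δ →
      ∫ τ in (0 : ℝ)..T, θ τ * ⟪u (τ + h) - u (τ - h), u τ⟫_ℝ =
        -∫ s, (θ (s + h) - θ s) * ⟪v (s + h), v s⟫_ℝ := by
    intro h h0 hd
    have e1 : ∫ τ in (0 : ℝ)..T, θ τ * ⟪u (τ + h) - u (τ - h), u τ⟫_ℝ =
        ∫ τ, (θ τ * ⟪v (τ + h), v τ⟫_ℝ - θ τ * ⟪v (τ + -h), v τ⟫_ℝ) := by
      rw [intervalIntegral.integral_of_le hT.le, ← integral_indicator measurableSet_Ioc]
      refine integral_congr_ae (Filter.Eventually.of_forall fun τ => ?_)
      simp only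
      by_cases hτ : θ τ = 0
      · simp [indicator, hτ]
      · obtain ⟨h1, h2⟩ := hδs τ hτ
        have m0 : τ ∈ Ioo 0 T := ⟨by linarith, by linarith⟩
        have m1 : τ + h ∈ Ioo 0 T := ⟨by linarith, by linarith⟩
        have m2 : τ + -h ∈ Ioo 0 T := ⟨by linarith, by linarith⟩
        rw [indicator_of_mem (Ioo_subset_Ioc_self m0), hve _ m0, hve _ m1, hve _ m2,
          inner_sub_left, mul_sub, ← sub_eq_add_neg]
    have e2 : ∫ τ, θ τ * ⟪v (τ + -h), v τ⟫_ℝ = ∫ s, θ (s + h) * ⟪v (s + h), v s⟫_ℝ := by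
      rw [← integral_add_right_eq_self (fun τ => θ τ * ⟪v (τ + -h), v τ⟫_ℝ) h]
      refine integral_congr_ae (Filter.Eventually.of_forall fun s => ?_)
      simp only
      rw [add_neg_cancel_right, real_inner_comm]
    have i2 : Integrable fun s => θ (s + h) * ⟪v (s + h), v s⟫_ℝ := by
      have := (hint (-h)).comp_add_right h
      refine this.congr (Filter.Eventually.of_forall fun s => ?_)
      simp only
      rw [add_neg_cancel_right, real_inner_comm]
    rw [e1, integral_sub (hint h) (hint (-h)), e2, ← integral_sub (hint h) i2, ← integral_neg]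
    refine integral_congr_ae (Filter.Eventually.of_forall fun s => ?_)
    simp only
    ring
  -- the limit
  have hlim : Tendsto (fun h : ℝ => ∫ s, ((θ (s + h) - θ s) / h) * ⟪v (s + h), v s⟫_ℝ) (𝓝[>] 0)
      (𝓝 (∫ s, deriv θ s * ‖v s‖ ^ 2)) := by
    refine tendsto_integral_filter_of_dominated_convergence
      (fun s => (Icc 0 T).indicator (fun _ => (C : ℝ) * M ^ 2) s) ?_ ?_ ?_ ?_
    · refine Filter.Eventually.of_forall fun h => ?_
      refine AEStronglyMeasurable.mul ?_ ((hshift h).inner hvm)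
      exact (((hθ.continuous.comp (continuous_id.add continuous_const)).sub
        hθ.continuous).div_const h).aestronglyMeasurable
    · filter_upwards [self_mem_nhdsWithin] with h hh
      have hh : 0 < h := hh
      refine Filter.Eventually.of_forall fun s => ?_
      by_cases hs : s ∈ Icc 0 T
      · rw [indicator_of_mem hs, norm_mul, sq]
        refine mul_le_mul ?_ ?_ (norm_nonneg _) C.2
        · rw [norm_div, div_le_iff₀ (by simpa using hh.ne')]
          exact hθb h s
        · exact (norm_inner_le_norm _ _).trans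
            (mul_le_mul (hvb _) (hvb _) (norm_nonneg _) hM)
      · rw [indicator_of_notMem hs]
        have : v s = 0 := indicator_of_notMem (fun h' => hs (Ioo_subset_Icc_self h')) u
        rw [this, inner_zero_right, mul_zero, norm_zero]
    · exact (integrable_indicator_iff measurableSet_Icc).2 (integrableOn_const (by simp))
    · filter_upwards [hθ.ae_differentiableAt] with s hs
      have h1 : Tendsto (fun h : ℝ => (θ (s + h) - θ s) / h) (𝓝[>] 0) (𝓝 (deriv θ s)) := by
        have h2 := (hasDerivAt_iff_tendsto_slope_zero.1 hs.hasDerivAt).mono_left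
          (nhdsWithin_mono 0 (fun x (hx : x ∈ Ioi (0 : ℝ)) => (ne_of_gt hx : x ≠ 0)))
        refine h2.congr fun h => ?_
        rw [smul_eq_mul, inv_mul_eq_div]
      by_cases hs0 : s ∈ Ioo 0 T
      · have h3 : Tendsto (fun h : ℝ => ⟪v (s + h), v s⟫_ℝ) (𝓝[>] 0) (𝓝 ⟪v s, v s⟫_ℝ) := by
          have h4 : ContinuousAt (fun t => ⟪u t, u s⟫_ℝ) s :=
            (huw (u s)).continuousAt (Icc_mem_nhds hs0.1 hs0.2)
          have h5 : Tendsto (fun h : ℝ => s + h) (𝓝[>] 0) (𝓝 s) := by
            have : Tendsto (fun h : ℝ => s + h) (𝓝 0) (𝓝 (s + 0)) :=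
              (continuous_const.add continuous_id).tendsto 0
            rw [add_zero] at this
            exact this.mono_left nhdsWithin_le_nhds
          have h6 := h4.tendsto.comp h5
          rw [hve s hs0]
          refine h6.congr' ?_
          filter_upwards [h5.eventually (Ioo_mem_nhds hs0.1 hs0.2)] with h hh
          simp only [Function.comp_apply]
          rw [hve _ hh]
        have h7 := h1.mul h3
        rwa [real_inner_self_eq_norm_sq] at h7
      · have h0 : v s = 0 := indicator_of_notMem hs0 u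
        rw [h0]
        simp only [inner_zero_right, mul_zero, norm_zero]
        simp
  have hfin : ∫ τ in (0 : ℝ)..T, deriv θ τ * ‖u τ‖ ^ 2 = ∫ s, deriv θ s * ‖v s‖ ^ 2 := by
    rw [intervalIntegral.integral_of_le hT.le, integral_Ioc_eq_integral_Ioo,
      ← integral_indicator measurableSet_Ioo]
    refine integral_congr_ae (Filter.Eventually.of_forall fun s => ?_)
    simp only
    by_cases hs : s ∈ Ioo 0 T
    · rw [indicator_of_mem hs, hve s hs]
    · rw [indicator_of_notMem hs, hv, indicator_of_notMem hs, norm_zero]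
      simp
  rw [hfin]
  refine hlim.neg.congr' ?_
  filter_upwards [self_mem_nhdsWithin, nhdsWithin_le_nhds (Iio_mem_nhds hδ)] with h hh hd
  have hh : 0 < h := hh
  rw [hline h hh hd, mul_neg, ← integral_const_mul]
  congr 1
  refine integral_congr_ae (Filter.Eventually.of_forall fun s => ?_)
  simp only
  ring

end Pool.Agent.P8H16.TF
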