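import Pool.Agent.P8H70.TF.Stm

/-!
# Project TF, package SWAP
-/

set_option autoImplicit false

open MeasureTheory Set Filter Topology
open scoped InnerProductSpace ENNReal NNReal

namespace Pool.Agent.P8H16.TF

open Pool.Agent.P8H70.TF

/-- the strip around the diagonal -/
def strip (h : ℝ) : Set (ℝ × ℝ) := {p | |p.2 - p.1| < h}

lemma strip_meas (h : ℝ) : MeasurableSet (strip h) :=
  (isOpen_lt ((continuous_snd.sub continuous_fst).abs) continuous_const).measurableSet

lemma diag_null : ∀ᵐ p : ℝ × ℝ, p.1 ≠ p.2 := by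
  have h : (volume : Measure (ℝ × ℝ)) {p : ℝ × ℝ | p.1 = p.2} = 0 := by
    rw [Measure.volume_eq_prod, Measure.measure_prod_null
      (measurableSet_eq_fun measurable_fst measurable_snd)]
    refine Filter.Eventually.of_forall fun x => ?_
    have : Prod.mk x ⁻¹' {p : ℝ × ℝ | p.1 = p.2} = {x} := by
      ext y
      simp [eq_comm]
    simp only [this, Pi.zero_apply, Real.volume_singleton]
  rw [ae_iff]
  convert h using 2
  ext p
  simp

lemma inner_strip {K : Type} [NormedAddCommGroup K] [InnerProductSpace ℝ K] (f : ℝ → ℝ → ℝ)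
    {h : ℝ} (hh : 0 < h) (τ : ℝ) :
    ∫ r in (τ - h)..(τ + h), f τ r = ∫ r, (strip h).indicator (fun p : ℝ × ℝ => f p.1 p.2) (τ, r) := by
  rw [intervalIntegral.integral_of_le (by linarith), integral_Ioc_eq_integral_Ioo,
    ← integral_indicator measurableSet_Ioo]
  refine integral_congr_ae (Filter.Eventually.of_forall fun r => ?_)
  simp only [indicator, strip, mem_ofPred_eq, mem_Ioo, abs_lt]
  congr 1
  rw [eq_iff_iff]
  constructor
  · rintro ⟨h1, h2⟩
    constructor <;> linarith
  · rintro ⟨h1, h2⟩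
    constructor <;> linarith

theorem swap : S_SWAP := by
  intro K _ _ _ m G θ C hm hG hθ hθc
  obtain ⟨B, hB⟩ : ∃ B : ℝ, ∀ x, ‖θ x‖ ≤ B := hθc.exists_bound_of_continuous hθ.continuous
  have hB0 : 0 ≤ B := (norm_nonneg _).trans (hB 0)
  -- the kernel
  set Φ : ℝ × ℝ → ℝ := fun p => ⟪m p.1, G p.2⟫_ℝ with hΦ
  set N : ℝ × ℝ → ℝ := fun p => ‖m p.1‖ * ‖G p.2‖ with hN
  have hNi : Integrable N := hm.norm.mul_prod hG.norm
  have hΦm : AEStronglyMeasurable Φ volume :=
    (hm.1.comp_fst).inner (hG.1.comp_snd)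
  have hΦN : ∀ p, ‖Φ p‖ ≤ N p := fun p => norm_inner_le_norm _ _
  have hint : ∀ (g : ℝ × ℝ → ℝ) (h : ℝ), Continuous g → (∀ p, ‖g p‖ ≤ B) →
      Integrable ((strip h).indicator fun p => g p * Φ p) := by
    intro g h hg hgB
    refine Integrable.indicator ?_ (strip_meas h)
    refine (hNi.const_mul B).mono' (hg.aestronglyMeasurable.mul hΦm) ?_
    refine Filter.Eventually.of_forall fun p => ?_
    rw [norm_mul]
    exact mul_le_mul (hgB p) (hΦN p) (norm_nonneg _) hB0
  have h1 : ∀ h : ℝ, 0 < h → ∫ τ, θ τ * ∫ r in (τ - h)..(τ + h), ⟪m τ, G r⟫_ℝ =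
      ∫ p, (strip h).indicator (fun p => θ p.1 * Φ p) p := by
    intro h hh
    rw [Measure.volume_eq_prod, integral_prod _ (hint (fun p => θ p.1) h
      (hθ.continuous.comp continuous_fst) fun p => hB _)]
    refine integral_congr_ae (Filter.Eventually.of_forall fun τ => ?_)
    simp only
    rw [← intervalIntegral.integral_const_mul, inner_strip (K := K)
      (fun τ r => θ τ * ⟪m τ, G r⟫_ℝ) hh τ]
  have h2 : ∀ h : ℝ, 0 < h → ∫ τ, θ τ * ∫ r in (τ - h)..(τ + h), ⟪m r, G τ⟫_ℝ =
      ∫ p, (strip h).indicator (fun p => θ p.2 * Φ p) p := by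
    intro h hh
    have hsw := integral_prod _
      ((hint (fun p => θ p.2) h (hθ.continuous.comp continuous_snd) fun p => hB _).swap)
    simp only [Function.comp_apply] at hsw
    rw [Measure.volume_eq_prod, ← integral_prod_swap, hsw]
    refine integral_congr_ae (Filter.Eventually.of_forall fun τ => ?_)
    simp only
    rw [← intervalIntegral.integral_const_mul, inner_strip (K := K)
      (fun τ r => θ τ * ⟪m r, G τ⟫_ℝ) hh τ]
    refine integral_congr_ae (Filter.Eventually.of_forall fun r => ?_)
    have hmem : (τ, r) ∈ strip h ↔ (τ, r).swap ∈ strip h := by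
      simp only [strip, mem_ofPred_eq, Prod.swap]
      rw [abs_sub_comm]
    by_cases hp : (τ, r) ∈ strip h
    · simp only
      rw [indicator_of_mem hp, indicator_of_mem (hmem.1 hp)]
      rfl
    · simp only
      rw [indicator_of_notMem hp, indicator_of_notMem (fun h' => hp (hmem.2 h'))]
  have h3 : Tendsto (fun h : ℝ => ∫ p, (strip h).indicator N p) (𝓝[>] 0) (𝓝 0) := by
    have h4 : Tendsto (fun h : ℝ => ∫ p, (strip h).indicator N p) (𝓝[>] 0)
        (𝓝 (∫ _ : ℝ × ℝ, (0 : ℝ))) := by
      refine tendsto_integral_filter_of_dominated_convergence N ?_ ?_ hNi ?_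
      · exact Filter.Eventually.of_forall fun h => hNi.1.indicator (strip_meas h)
      · refine Filter.Eventually.of_forall fun h => Filter.Eventually.of_forall fun p => ?_
        rw [norm_indicator_eq_indicator_norm]
        refine (indicator_le_self' (fun _ _ => norm_nonneg _) p).trans (le_of_eq ?_)
        exact Real.norm_of_nonneg (mul_nonneg (norm_nonneg _) (norm_nonneg _))
      · filter_upwards [diag_null] with p hp
        refine tendsto_const_nhds.congr' ?_
        have hp' : 0 < |p.2 - p.1| := abs_pos.2 (sub_ne_zero.2 (Ne.symm hp))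
        filter_upwards [nhdsWithin_le_nhds (Iio_mem_nhds hp')] with h hh
        rw [indicator_of_notMem]
        intro hmem
        have hmem' : |p.2 - p.1| < h := hmem
        have hh' : h < |p.2 - p.1| := hh
        exact lt_asymm hh' hmem'
    rwa [integral_zero] at h4
  have h5 : Tendsto (fun h : ℝ => (C : ℝ) * ∫ p, (strip h).indicator N p) (𝓝[>] 0) (𝓝 0) := by
    have := h3.const_mul (C : ℝ)
    rwa [mul_zero] at this
  refine squeeze_zero_norm' ?_ h5
  filter_upwards [self_mem_nhdsWithin] with h hh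
  have hh : 0 < h := hh
  rw [h1 h hh, h2 h hh, ← mul_sub, ← integral_sub
    (hint (fun p => θ p.1) h (hθ.continuous.comp continuous_fst) fun p => hB _)
    (hint (fun p => θ p.2) h (hθ.continuous.comp continuous_snd) fun p => hB _)]
  have h6 : ‖∫ p, ((strip h).indicator (fun p => θ p.1 * Φ p) p -
      (strip h).indicator (fun p => θ p.2 * Φ p) p)‖ ≤
      ∫ p, (C : ℝ) * h * (strip h).indicator N p := by
    refine norm_integral_le_of_norm_le ((hNi.indicator (strip_meas h)).const_mul _) ?_
    refine Filter.Eventually.of_forall fun p => ?_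
    by_cases hp : p ∈ strip h
    · rw [indicator_of_mem hp, indicator_of_mem hp, indicator_of_mem hp, ← sub_mul, norm_mul]
      refine mul_le_mul ?_ (hΦN p) (norm_nonneg _) (mul_nonneg C.2 hh.le)
      have h7 := hθ.dist_le_mul p.1 p.2
      rw [dist_eq_norm, dist_comm, Real.dist_eq] at h7
      exact h7.trans (mul_le_mul_of_nonneg_left (le_of_lt hp) C.2)
    · rw [indicator_of_notMem hp, indicator_of_notMem hp, indicator_of_notMem hp, sub_zero,
        norm_zero, mul_zero]
  rw [integral_const_mul] at h6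
  rw [norm_mul, Real.norm_of_nonneg (by positivity : (0 : ℝ) ≤ 1 / h)]
  calc 1 / h * _ ≤ 1 / h * ((C : ℝ) * h * ∫ p, (strip h).indicator N p) :=
        mul_le_mul_of_nonneg_left h6 (by positivity)
    _ = (C : ℝ) * ∫ p, (strip h).indicator N p := by
        field_simp

end Pool.Agent.P8H16.TF
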